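import Pool.Agent.H10.T2.Targets1

/-!
# Module GA of the board t2 (helper10, MP_657073_al): the theorem of Gallagher for triples
-/

open scoped Classical ComplexConjugate

set_option linter.unusedSectionVars false

open AMc AMe AMt Pool.Agent.H77.EA.All

namespace Pool.Agent.H51.T2

variable {Γ : Type} [Group Γ] [Fintype Γ] {K U : Subgroup Γ} {θ : Γ → ℂ}
  {H : Type} [Group H] [Fintype H] {p : H →* Γ} {i : K →* H} {τ : H → ℂ}

section basic

variable (T : Trp K U θ p i τ)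

include T

theorem tau1 : τ 1 = θ 1 := by
  have := T.res 1
  simpa using this

theorem th1 : θ 1 ≠ 0 := by
  obtain ⟨d, hd, h⟩ := (fS1 Γ K θ T.irr).2.2.1
  rw [h]
  exact_mod_cast hd.ne'

theorem th1c : conj (θ 1) = θ 1 := by
  obtain ⟨d, hd, h⟩ := (fS1 Γ K θ T.irr).2.2.1
  rw [h]
  simp

theorem tch : IsChar H τ := ((fA3 H).1 τ T.tau).1

theorem tcls (g x : H) : τ (g * x * g⁻¹) = τ x := ((fA3 H).2.1 τ (tch T)).1 g x

theorem tcj (g : H) : conj (τ g) = τ g⁻¹ := ((fA3 H).2.1 τ (tch T)).2.1 g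

theorem tcyc (a b : H) : τ (a * b) = τ (b * a) := by
  have := tcls T b (a * b)
  rw [← this]
  congr 1
  group

theorem tin : Function.Injective i := by
  intro k k' h
  apply Subtype.ext
  rw [← T.pi k, ← T.pi k', h]

theorem icj (a : H) (k : K) : ∃ k' : K, (k' : Γ) = p a * k * (p a)⁻¹ ∧ i k' = a * i k * a⁻¹ := by
  obtain ⟨k', hk⟩ := T.cjk a k
  refine ⟨k', ?_, hk⟩
  rw [← T.pi k', hk, map_mul, map_mul, map_inv, T.pi]

theorem thIrr : (fun k : K => θ k) ∈ Irr K := (fS1 Γ K θ T.irr).2.2.2.2.2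

theorem card0 : (Nat.card K : ℂ) ≠ 0 := by
  exact_mod_cast (Nat.card_pos (α := K)).ne'

theorem s2a (SC : T_SC) (X : H) (m : K) :
    ∑ l : K, τ (X * i (l⁻¹ * m * l)) = (Nat.card K : ℂ) / θ 1 * θ m * τ X := by
  have hn := card0 T
  have hc := th1 T
  have h1 : ∀ l : K, τ (X * i (l⁻¹ * m * l)) =
      θ 1 / (Nat.card K : ℂ) * ∑ k : K, τ (X * i k) * θ ((k⁻¹ * (l⁻¹ * m * l) : K) : Γ) := by
    intro l
    have h := T.sch X (i (l⁻¹ * m * l))
    have h2 : ∑ k : K, τ (X * i k) * θ ((k⁻¹ * (l⁻¹ * m * l) : K) : Γ) =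
        (Nat.card K : ℂ) / θ 1 * τ (X * i (l⁻¹ * m * l)) := by
      rw [← h]
      refine Finset.sum_congr rfl fun k _ => ?_
      rw [← T.res, map_mul, map_inv]
    rw [h2]
    field_simp
  rw [Finset.sum_congr rfl fun l _ => h1 l, ← Finset.mul_sum, Finset.sum_comm]
  have h3 : ∀ k : K, ∑ l : K, τ (X * i k) * θ ((k⁻¹ * (l⁻¹ * m * l) : K) : Γ) =
      (Nat.card K : ℂ) / θ 1 * θ m * (τ (X * i k) * τ ((i k)⁻¹ * 1)) := by
    intro k
    rw [← Finset.mul_sum]
    have h4 := (SC K _ (thIrr T) _ (thIrr T) m k⁻¹).2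
    have h5 : ∑ l : K, θ ((k⁻¹ * (l⁻¹ * m * l) : K) : Γ) =
        ∑ a : K, θ ((a * m * a⁻¹ * k⁻¹ : K) : Γ) := by
      refine Fintype.sum_equiv (Equiv.inv K) _ _ fun l => ?_
      have h6 := (fS1 Γ K θ T.irr).2.1 k k.2 ((k⁻¹ * (l⁻¹ * m * l) : K) : Γ)
      rw [← h6]
      congr 1
      simp only [Equiv.inv_apply, Subgroup.coe_mul, Subgroup.coe_inv, inv_inv]
      group
    rw [h5]
    have h7 : τ ((i k)⁻¹ * 1) = θ ((k⁻¹ : K) : Γ) := by
      rw [mul_one, ← map_inv, T.res]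
    rw [h7]
    have h8 : ∑ a : K, θ ((a * m * a⁻¹ * k⁻¹ : K) : Γ) =
        (Nat.card K : ℂ) / θ ((1 : K) : Γ) * θ m * θ ((k⁻¹ : K) : Γ) := h4
    rw [h8, Subgroup.coe_one]
    ring
  rw [Finset.sum_congr rfl fun k _ => h3 k, ← Finset.mul_sum, T.sch X 1, mul_one]
  field_simp

theorem s2 (SC : T_SC) (X Y : H) :
    ∑ l : K, τ (i l * X * (i l)⁻¹ * Y) = (Nat.card K : ℂ) / θ 1 * τ X * τ Y := by
  have hn := card0 T
  have hc := th1 T
  have h1 : ∀ l : K, τ (i l * X * (i l)⁻¹ * Y) =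
      θ 1 / (Nat.card K : ℂ) * ∑ m : K, τ (X * i (l⁻¹ * m * l)) * τ ((i m)⁻¹ * Y) := by
    intro l
    have h := T.sch (i l * X) ((i l)⁻¹ * Y)
    have h2 : ∑ m : K, τ (X * i (l⁻¹ * m * l)) * τ ((i m)⁻¹ * Y) =
        (Nat.card K : ℂ) / θ 1 * τ (i l * X * (i l)⁻¹ * Y) := by
      have h3 : i l * X * ((i l)⁻¹ * Y) = i l * X * (i l)⁻¹ * Y := by group
      rw [← h3, ← h]
      symm
      refine Fintype.sum_equiv (Equiv.mulLeft l) _ _ fun k => ?_
      simp only [Equiv.coe_mulLeft]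
      have h4 : X * i (l⁻¹ * (l * k) * l) = (i l)⁻¹ * (i l * X * i k) * (i l)⁻¹⁻¹ := by
        have : l⁻¹ * (l * k) * l = k * l := by group
        rw [this, map_mul]
        group
      rw [h4, tcls T]
      congr 2
      rw [map_mul]
      group
    rw [h2]
    field_simp
  rw [Finset.sum_congr rfl fun l _ => h1 l, ← Finset.mul_sum, Finset.sum_comm]
  have h3 : ∀ m : K, ∑ l : K, τ (X * i (l⁻¹ * m * l)) * τ ((i m)⁻¹ * Y) =
      (Nat.card K : ℂ) / θ 1 * τ X * (τ (1 * i m) * τ ((i m)⁻¹ * Y)) := by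
    intro m
    rw [← Finset.sum_mul, s2a T SC, one_mul, T.res]
    ring
  rw [Finset.sum_congr rfl fun k _ => h3 k, ← Finset.mul_sum, T.sch 1 Y, one_mul]
  field_simp

theorem nrm (a : H) : ∑ k : K, τ (a * i k) * conj (τ (a * i k)) = Nat.card K := by
  have hc := th1 T
  have h := T.sch a a⁻¹
  rw [mul_inv_cancel, tau1 T] at h
  rw [div_mul_cancel₀ _ hc] at h
  rw [← h]
  refine Finset.sum_congr rfl fun k _ => ?_
  rw [tcj T, mul_inv_rev]

theorem kinv {f g : H → ℂ} (hf : ∀ a k, f (a * i k) = f a) (hg : ∀ a k, g (a * i k) = g a)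
    (h : ∀ a, τ a * f a = τ a * g a) : f = g := by
  funext a
  by_contra hne
  have h1 : ∀ k : K, τ (a * i k) = 0 := by
    intro k
    by_contra h0
    have := mul_left_cancel₀ h0 (h (a * i k))
    rw [hf, hg] at this
    exact hne this
  have h2 := nrm T a
  simp only [h1, zero_mul, Finset.sum_const_zero] at h2
  exact card0 T h2.symm

theorem nsum (g : H → ℂ) (hg : ∀ a k, g (a * i k) = g a) :
    ∑ a, τ a * conj (τ a) * g a = ∑ a, g a := by
  have hn := card0 T
  have h1 : ∀ k : K, ∑ a, τ a * conj (τ a) * g a =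
      ∑ a, τ (a * i k) * conj (τ (a * i k)) * g a := by
    intro k
    symm
    refine Fintype.sum_equiv (Equiv.mulRight (i k)) _ _ fun a => ?_
    simp only [Equiv.coe_mulRight]
    rw [hg]
  have h2 : ∑ k : K, ∑ a, τ a * conj (τ a) * g a = (Nat.card K : ℂ) * ∑ a, g a := by
    rw [Finset.sum_congr rfl fun k _ => h1 k, Finset.sum_comm, Finset.mul_sum]
    refine Finset.sum_congr rfl fun a _ => ?_
    rw [← Finset.sum_mul, nrm T]
  rw [Finset.sum_const, Finset.card_univ, ← Nat.card_eq_fintype_card, nsmul_eq_mul] at h2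
  exact mul_left_cancel₀ hn h2

theorem tz (z : H) (hz : p z = 1) (a : H) : τ (z * a) * τ 1 = τ z * τ a :=
  (fZH H τ T.tau z (Subgroup.mem_center_iff.2 fun g => (T.kerp z hz g).symm)).1 a

theorem tz0 (z : H) (hz : p z = 1) : τ z * conj (τ z) = τ 1 * τ 1 := by
  have := tz T z hz z⁻¹
  rw [mul_inv_cancel] at this
  rw [tcj T, this]

end basic


theorem sumS {G : Type} [Group G] [Fintype G] (W : Subgroup G) (F : G → ℂ)
    (hF : ∀ g, g ∉ W → F g = 0) : ∑ w : W, F w = ∑ g, F g := by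
  have h1 : ∑ g, F g = ∑ g ∈ Finset.univ.filter (fun g => g ∈ W), F g := by
    rw [Finset.sum_filter]
    refine Finset.sum_congr rfl fun g _ => ?_
    by_cases h : g ∈ W
    · rw [if_pos h]
    · rw [if_neg h, hF g h]
  rw [h1]
  symm
  exact Finset.sum_subtype _ (fun x => by simp) F

theorem coeff_sum_single {G ι : Type} [Group G] [Fintype ι] (x : ι → G) (c : ι → ℂ) (g : G) :
    (∑ k, MonoidAlgebra.single (x k) (c k)).coeff g = ∑ k, if x k = g then c k else 0 := by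
  rw [MonoidAlgebra.coeff_sum, Finsupp.finsetSum_apply]
  refine Finset.sum_congr rfl fun k _ => ?_
  rw [MonoidAlgebra.coeff_single, Finsupp.single_apply]

theorem ev_sum {G ι : Type} [Group G] [Fintype G] [Fintype ι] (f : G → ℂ) (x : ι → G)
    (c : ι → ℂ) : ev f (∑ k, MonoidAlgebra.single (x k) (c k)) = ∑ k, c k * f (x k) := by
  unfold ev
  have h1 : ∀ g, (∑ k, MonoidAlgebra.single (x k) (c k)).coeff g * f g =
      ∑ k, if x k = g then c k * f g else 0 := by
    intro g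
    rw [coeff_sum_single, Finset.sum_mul]
    refine Finset.sum_congr rfl fun k _ => ?_
    split_ifs <;> simp
  rw [Finset.sum_congr rfl fun g _ => h1 g, Finset.sum_comm]
  refine Finset.sum_congr rfl fun k _ => ?_
  rw [Finset.sum_ite_eq]
  simp

theorem ev_single {G : Type} [Group G] [Fintype G] (f : G → ℂ) (x : G) (c : ℂ) :
    ev f (MonoidAlgebra.single x c) = c * f x := by
  have := ev_sum f (fun _ : Unit => x) (fun _ => c)
  simpa using this

theorem coeff_single_mul' {G : Type} [Group G] [Fintype G] (x : G) (e : MonoidAlgebra ℂ G)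
    (g : G) : (MonoidAlgebra.single x 1 * e).coeff g = e.coeff (x⁻¹ * g) := by
  rw [coeff_mul_group, Finset.sum_eq_single x]
  · simp
  · intro b _ hb
    rw [MonoidAlgebra.coeff_single, Finsupp.single_apply, if_neg (fun h => hb h.symm), zero_mul]
  · intro h
    exact absurd (Finset.mem_univ _) h

section main

variable {V : Subgroup Γ} {ψ : Γ → ℂ}

/-- the projection of the preimage of `V` to `V` -/
def qq (p : H →* Γ) (V : Subgroup Γ) : V.comap p →* V :=
  (p.comp (V.comap p).subtype).codRestrict V (fun w => w.2)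

theorem qq_apply (w : V.comap p) : (qq p V w : Γ) = p w := rfl

variable (T : Trp K U θ p i τ)

include T

theorem qsur (hV : V ≤ U) : Function.Surjective (qq p V) := by
  intro v
  have h : (v : Γ) ∈ p.range := by
    rw [T.rng]
    exact hV v.2
  obtain ⟨a, ha⟩ := h
  have ha2 : a ∈ V.comap p := by
    rw [Subgroup.mem_comap, ha]
    exact v.2
  exact ⟨⟨a, ha2⟩, Subtype.ext ha⟩

theorem iW (hK : K ≤ V) (k : K) : i k ∈ V.comap p := by
  rw [Subgroup.mem_comap, T.pi]
  exact hK k.2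

theorem pb (hV : V ≤ U) (hψ : ψ ∈ IrrS V) :
    (fun w : V.comap p => ψ (p w)) ∈ Irr (V.comap p) := by
  have h1 := (fS1 Γ V ψ hψ).2.2.2.2.2
  exact ((fQI (V.comap p) V (qq p V) (qsur T hV)).1 (fun v : V => ψ v)).1 h1

theorem cjsum (b : H) (F G : K → ℂ) (h : ∀ k k' : K, (k' : Γ) = p b * k * (p b)⁻¹ →
    i k' = b * i k * b⁻¹ → F k = G k') : ∑ k, F k = ∑ k, G k := by
  choose s hs1 hs2 using icj T b
  have hinj : Function.Injective s := by
    intro k k' hkk
    have h1 := hs2 k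
    rw [hkk, hs2 k'] at h1
    exact (tin T (mul_left_cancel (mul_right_cancel h1))).symm
  exact Fintype.sum_bijective s (Finite.injective_iff_bijective.1 hinj) _ _
    (fun k => h k (s k) (hs1 k) (hs2 k))

theorem cons (hK : K ≤ V) (hV : V ≤ U) {η : H → ℂ} (hη : η ∈ IrrS (V.comap p))
    (h1 : ∀ a k, η (a * i k) = η a) (h2 : ∀ z, p z = 1 → η z * τ z = η 1 * τ 1) :
    ∃ ψ ∈ IrrS V, Over ψ θ ∧ ∀ a ∈ V.comap p, ψ (p a) = τ a * η a := by
  obtain ⟨hη0, -, ⟨d, hd, hη1⟩, -, hηc, -⟩ := fS1 H (V.comap p) η hη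
  have hch : IsChar (V.comap p) (fun w => τ w * η w) :=
    fA4.1 (V.comap p) _ _ (fA4.2.1 (V.comap p) H (V.comap p).subtype τ (tch T)) hηc
  have hnorm : ∑ w : V.comap p, (τ w * η w) * conj (τ w * η w) =
      (Nat.card (V.comap p) : ℂ) := by
    rw [sumS (V.comap p) (fun a => (τ a * η a) * conj (τ a * η a))
      (fun g hg => by rw [hη0 g hg]; simp)]
    have h3 := nsum T (fun a => η a * conj (η a)) (fun a k => by simp only [h1])
    have h4 := fS2 H (V.comap p) η η hη hη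
    rw [if_pos rfl, ← h3] at h4
    rw [← h4]
    refine Finset.sum_congr rfl fun a _ => ?_
    rw [map_mul]
    ring
  have hirr : (fun w : V.comap p => τ w * η w) ∈ Irr (V.comap p) :=
    (fA3 (V.comap p)).2.2.2 _ hch hnorm
  obtain ⟨a0, ha0, hf⟩ := (fQI (V.comap p) V (qq p V) (qsur T hV)).2 _ hirr (by
    intro z hz
    have hz2 : p z = 1 := by
      rw [← qq_apply, hz]
      rfl
    have := h2 z hz2
    show τ z * η z = τ ((1 : V.comap p) : H) * η ((1 : V.comap p) : H)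
    rw [mul_comm, this, mul_comm]
    rfl)
  have key : ∀ a ∈ V.comap p, ext0 V a0 (p a) = τ a * η a := by
    intro a ha
    have h3 : p a ∈ V := ha
    unfold ext0
    rw [dif_pos h3]
    exact (congrFun hf ⟨a, ha⟩).symm
  refine ⟨ext0 V a0, ⟨a0, ha0, rfl⟩, ?_, key⟩
  have h5 : ∀ g, g ∉ K → ext0 V a0 g * conj (θ g) = 0 := by
    intro g hg
    rw [(fS1 Γ K θ T.irr).1 g hg]
    simp
  unfold Over
  rw [← sumS K _ h5]
  have h6 : ∀ k : K, ext0 V a0 k * conj (θ k) = η 1 * (θ k * conj (θ k)) := by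
    intro k
    have h7 := key (i k) (iW T hK k)
    rw [T.pi, T.res] at h7
    have h8 := h1 1 k
    rw [one_mul] at h8
    rw [h7, h8]
    ring
  rw [Finset.sum_congr rfl fun k _ => h6 k, ← Finset.mul_sum,
    sumS K (fun g => θ g * conj (θ g)) (fun g hg => by rw [(fS1 Γ K θ T.irr).1 g hg]; simp),
    fS2 Γ K θ θ T.irr T.irr, if_pos rfl, hη1]
  exact mul_ne_zero (by exact_mod_cast hd.ne') (card0 T)

omit T in
/-- the function `η` attached to `ψ` -/
noncomputable def eta (K : Subgroup Γ) (p : H →* Γ) (i : K →* H) (τ : H → ℂ) (ψ : Γ → ℂ)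
    (a : H) : ℂ := (Nat.card K : ℂ)⁻¹ * ∑ k : K, ψ (p a * k) * conj (τ (a * i k))

theorem etaA (a : H) : ev ψ (sm K θ p i τ a) = θ 1 * eta K p i τ ψ a := by
  unfold sm eta
  rw [ev_sum, ← mul_assoc, Finset.mul_sum]
  refine Finset.sum_congr rfl fun k _ => ?_
  ring

theorem etaB (a : H) (l : K) : eta K p i τ ψ (a * i l) = eta K p i τ ψ a := by
  unfold eta
  congr 1
  refine Fintype.sum_equiv (Equiv.mulLeft l) _ _ fun k => ?_
  simp only [Equiv.coe_mulLeft]
  rw [map_mul, T.pi, map_mul, Subgroup.coe_mul, mul_assoc, mul_assoc]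

theorem etaC (z : H) (hz : p z = 1) (a : H) :
    eta K p i τ ψ (z * a) * τ 1 = conj (τ z) * eta K p i τ ψ a := by
  have hc : conj (τ 1) = τ 1 := by rw [tau1 T, th1c T]
  unfold eta
  have h0 : (∑ k : K, ψ (p (z * a) * k) * conj (τ (z * a * i k))) * τ 1 =
      conj (τ z) * ∑ k : K, ψ (p a * k) * conj (τ (a * i k)) := by
    rw [Finset.sum_mul, Finset.mul_sum]
    refine Finset.sum_congr rfl fun k _ => ?_
    have h1 := congrArg (starRingEnd ℂ) (tz T z hz (a * i k))
    rw [map_mul, map_mul, hc] at h1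
    rw [mul_assoc, mul_assoc z, h1, map_mul, hz, one_mul]
    ring
  rw [mul_assoc, h0]
  ring

theorem etaE (hψ : ψ ∈ IrrS V) (b : H) (hb : b ∈ V.comap p) (a : H) :
    eta K p i τ ψ (b * a * b⁻¹) = eta K p i τ ψ a := by
  unfold eta
  congr 1
  symm
  refine cjsum T b _ _ fun k k' h1 h2 => ?_
  have h3 := (fS1 Γ V ψ hψ).2.1 (p b) hb (p a * k)
  rw [← h3, h1, h2, ← tcls T b (a * i k)]
  congr 2
  · rw [map_mul, map_mul, map_inv]
    group
  · congr 1
    group

theorem etaS (hK : K ≤ V) (hψ : ψ ∈ IrrS V) (a : H) (ha : a ∉ V.comap p) :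
    eta K p i τ ψ a = 0 := by
  unfold eta
  rw [Finset.sum_eq_zero, mul_zero]
  intro k _
  rw [(fS1 Γ V ψ hψ).1, zero_mul]
  intro h
  exact ha ((V.mul_mem_cancel_right (hK k.2)).1 h)

theorem psiD (ZF : T_ZF) (hK : K ≤ V) (hV : V ≤ U) (hψ : ψ ∈ IrrS V) (ho : Over ψ θ) (x : Γ)
    (hx : x ∈ V) : ψ x = θ 1 / (Nat.card K : ℂ) * ∑ k : K, ψ (x * k) * conj (θ k) := by
  have hnin : NIn K V := ⟨hK, fun u hu => T.nin.nor u (hV hu)⟩
  obtain ⟨-, Z2, Z3⟩ := ZF Γ K V hnin ψ hψ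
  have h1 : ei K θ * ei V ψ = ei V ψ := (Z3 θ T.irr).2 (fun u hu => T.inv u (hV hu)) ho
  have hei : ∀ g, (ei K θ).coeff g = θ 1 / (Nat.card K : ℂ) * conj (θ g) := by
    intro g
    rfl
  have hs1 : ∀ g, g ∉ V → (MonoidAlgebra.single x (1 : ℂ)).coeff g = 0 := by
    intro g hg
    rw [MonoidAlgebra.coeff_single, Finsupp.single_apply, if_neg]
    rintro rfl
    exact hg hx
  have hs2 : ∀ g, g ∉ V → (MonoidAlgebra.single x (1 : ℂ) * ei K θ).coeff g = 0 := by
    intro g hg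
    rw [coeff_single_mul', hei, (fS1 Γ K θ T.irr).1 (x⁻¹ * g) ?_]
    · simp
    · intro h
      have h0 := V.mul_mem hx (hK h)
      rw [mul_inv_cancel_left] at h0
      exact hg h0
  have h2 := (Z2 _ hs1).1
  have h3 := (Z2 _ hs2).1
  rw [mul_assoc, h1, h2, ev_single, one_mul] at h3
  rw [h3]
  unfold ev
  have h4 : ∑ g, (MonoidAlgebra.single x (1 : ℂ) * ei K θ).coeff g * ψ g =
      ∑ g, (ei K θ).coeff g * ψ (x * g) := by
    symm
    refine Fintype.sum_equiv (Equiv.mulLeft x) _ _ fun g => ?_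
    simp only [Equiv.coe_mulLeft]
    rw [coeff_single_mul', inv_mul_cancel_left]
  rw [h4, ← sumS K _ (fun g hg => by
    rw [hei, (fS1 Γ K θ T.irr).1 g hg]; simp), Finset.mul_sum]
  refine Finset.sum_congr rfl fun k _ => ?_
  rw [hei]
  ring

theorem etaD (ZF : T_ZF) (SC : T_SC) (hK : K ≤ V) (hV : V ≤ U) (hψ : ψ ∈ IrrS V)
    (ho : Over ψ θ) (a : H) (ha : a ∈ V.comap p) : ψ (p a) = τ a * eta K p i τ ψ a := by
  have hn := card0 T
  have hc := th1 T
  have h1 : ∀ l : K, ψ (p a) = θ 1 / (Nat.card K : ℂ) * ∑ k : K,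
      ψ (p a * k) * τ ((i l)⁻¹ * ((i k)⁻¹ * a⁻¹) * (i l)⁻¹⁻¹ * a) := by
    intro l
    obtain ⟨t, ht1, ht2⟩ := icj T a⁻¹ l
    rw [map_inv, inv_inv] at ht1
    rw [inv_inv] at ht2
    rw [psiD T ZF hK hV hψ ho (p a) ha]
    congr 1
    refine Fintype.sum_equiv ((Equiv.mulLeft t).trans (Equiv.mulRight l⁻¹)) _ _ fun k => ?_
    simp only [Equiv.trans_apply, Equiv.coe_mulLeft, Equiv.coe_mulRight]
    have h2 := (fS1 Γ V ψ hψ).2.1 l (hK l.2) (p a * k)
    have h3 : p a * ((t * k * l⁻¹ : K) : Γ) = l * (p a * k) * (l : Γ)⁻¹ := by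
      rw [Subgroup.coe_mul, Subgroup.coe_mul, Subgroup.coe_inv, ht1]
      group
    have h4 : (i l)⁻¹ * ((i (t * k * l⁻¹))⁻¹ * a⁻¹) * (i l)⁻¹⁻¹ * a = i k⁻¹ := by
      rw [map_mul, map_mul, map_inv, ht2, map_inv]
      group
    rw [h3, h2, h4, T.res, Subgroup.coe_inv, (fS1 Γ K θ T.irr).2.2.2.1]
  have h5 : ∀ k : K, ∑ l : K, τ ((i l)⁻¹ * ((i k)⁻¹ * a⁻¹) * (i l)⁻¹⁻¹ * a) =
      (Nat.card K : ℂ) / θ 1 * conj (τ (a * i k)) * τ a := by
    intro k
    rw [tcj T, mul_inv_rev, ← s2 T SC]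
    refine Fintype.sum_equiv (Equiv.inv K) _ _ fun l => ?_
    simp only [Equiv.inv_apply, map_inv]
  have h6 : (Nat.card K : ℂ) * ψ (p a) = ∑ k : K, ψ (p a * k) * conj (τ (a * i k)) * τ a := by
    have h7 : (Nat.card K : ℂ) * ψ (p a) = ∑ l : K, ψ (p a) := by
      rw [Finset.sum_const, Finset.card_univ, ← Nat.card_eq_fintype_card, nsmul_eq_mul]
    rw [h7, Finset.sum_congr rfl fun l _ => h1 l, ← Finset.mul_sum, Finset.sum_comm,
      Finset.mul_sum]
    refine Finset.sum_congr rfl fun k _ => ?_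
    rw [← Finset.mul_sum, h5 k]
    field_simp
  unfold eta
  rw [← Finset.sum_mul] at h6
  field_simp
  rw [mul_comm, h6]
  ring

end main


section fin

variable {V : Subgroup Γ} {ψ : Γ → ℂ} (T : Trp K U θ p i τ)

include T

/-- an irreducible character of the preimage of `V` which is not orthogonal to an
`i K`-invariant function is `i K`-invariant -/
theorem etaI (ZF : T_ZF) (hK : K ≤ V) {η η0 : H → ℂ} (hη : ∀ a k, η (a * i k) = η a)
    (hη0 : η0 ∈ IrrS (V.comap p)) (hS : ∑ a, η a * conj (η0 a) ≠ 0) :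
    ∀ a k, η0 (a * i k) = η0 a := by
  have hn := card0 T
  set W := V.comap p with hW
  have hnin : NIn W W := ⟨le_rfl, fun u hu g hg => W.mul_mem (W.mul_mem hu hg) (W.inv_mem hu)⟩
  obtain ⟨-, Z2, -⟩ := ZF H W W hnin η0 hη0
  obtain ⟨h0, hcl, -, -, -, -⟩ := fS1 H W η0 hη0
  have hc : (∑ k : K, MonoidAlgebra.single (i k) (1 : ℂ)) ∈ ZA ℂ W W := by
    refine ⟨fun g hg => ?_, fun u hu g => ?_⟩
    · rw [coeff_sum_single]
      refine Finset.sum_eq_zero fun k _ => ?_
      rw [if_neg]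
      rintro rfl
      exact hg (iW T hK k)
    · rw [coeff_sum_single, coeff_sum_single]
      symm
      refine cjsum T u _ _ fun k k' _ h2 => ?_
      have h3 : i k = g ↔ i k' = u * g * u⁻¹ := by
        rw [h2]
        constructor
        · rintro rfl
          rfl
        · intro h
          exact mul_left_cancel (mul_right_cancel h)
      simp only [h3]
  have h1 : ∀ a ∈ W, ∑ k : K, η0 (a * i k) =
      (ev η0 (∑ k : K, MonoidAlgebra.single (i k) (1 : ℂ)) / η0 1) * η0 a := by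
    intro a ha
    have hs : ∀ g, g ∉ W → (MonoidAlgebra.single a (1 : ℂ)).coeff g = 0 := by
      intro g hg
      rw [MonoidAlgebra.coeff_single, Finsupp.single_apply, if_neg]
      rintro rfl
      exact hg ha
    have h2 := (Z2 _ hs).2.2 _ hc
    rw [Finset.sum_mul] at h2
    simp only [MonoidAlgebra.single_mul_single, mul_one] at h2
    rw [ev_sum, ev_single, one_mul] at h2
    rw [← h2]
    refine Finset.sum_congr rfl fun k _ => ?_
    rw [one_mul, ← hcl a ha (i k * a)]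
    congr 1
    group
  set lm := ev η0 (∑ k : K, MonoidAlgebra.single (i k) (1 : ℂ)) / η0 1 with hlm
  have hmem : ∀ a k, a * i k ∈ W ↔ a ∈ W := fun a k => W.mul_mem_cancel_right (iW T hK k)
  have h1' : ∀ a, ∑ k : K, η0 (a * i k) = lm * η0 a := by
    intro a
    by_cases ha : a ∈ W
    · exact h1 a ha
    · rw [h0 a ha, mul_zero]
      refine Finset.sum_eq_zero fun k _ => ?_
      exact h0 _ (fun h => ha ((hmem a k).1 h))
  have h3 : ∑ a, η a * conj (∑ k : K, η0 (a * i k)) =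
      (Nat.card K : ℂ) * ∑ a, η a * conj (η0 a) := by
    have h4 : ∀ a, η a * conj (∑ k : K, η0 (a * i k)) =
        ∑ k : K, η (a * i k) * conj (η0 (a * i k)) := by
      intro a
      rw [map_sum, Finset.mul_sum]
      refine Finset.sum_congr rfl fun k _ => ?_
      rw [hη]
    rw [Finset.sum_congr rfl fun a _ => h4 a, Finset.sum_comm]
    have h5 : ∀ k : K, ∑ a, η (a * i k) * conj (η0 (a * i k)) = ∑ a, η a * conj (η0 a) := by
      intro k
      exact Fintype.sum_equiv (Equiv.mulRight (i k)) _ _ fun a => rfl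
    rw [Finset.sum_congr rfl fun k _ => h5 k, Finset.sum_const, Finset.card_univ,
      ← Nat.card_eq_fintype_card, nsmul_eq_mul]
  have h6 : conj lm = (Nat.card K : ℂ) := by
    have h7 : ∑ a, η a * conj (∑ k : K, η0 (a * i k)) = conj lm * ∑ a, η a * conj (η0 a) := by
      rw [Finset.mul_sum]
      refine Finset.sum_congr rfl fun a _ => ?_
      rw [h1' a, map_mul]
      ring
    rw [h3] at h7
    exact (mul_right_cancel₀ hS h7).symm
  have h8 : lm = (Nat.card K : ℂ) := by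
    have := congrArg (starRingEnd ℂ) h6
    rw [Complex.conj_conj] at this
    rw [this]
    simp
  intro a l
  have h9 : ∑ k : K, η0 (a * i l * i k) = ∑ k : K, η0 (a * i k) := by
    refine Fintype.sum_equiv (Equiv.mulLeft l) _ _ fun k => ?_
    simp only [Equiv.coe_mulLeft, map_mul]
    rw [mul_assoc]
  rw [h1', h1', h8] at h9
  exact mul_left_cancel₀ hn h9

/-- the central kernel acts on such a character as on `η` -/
theorem etaK {η η0 : H → ℂ}
    (hη : ∀ z, p z = 1 → ∀ a, η (z * a) * τ 1 = conj (τ z) * η a)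
    (hη0 : η0 ∈ IrrS (V.comap p)) (hS : ∑ a, η a * conj (η0 a) ≠ 0) (z : H) (hz : p z = 1) :
    η0 z * τ z = η0 1 * τ 1 ∧ ∀ a, η0 (z * a) * η0 1 = η0 z * η0 a := by
  set W := V.comap p with hW
  have hzW : z ∈ W := by
    rw [hW, Subgroup.mem_comap, hz]
    exact V.one_mem
  obtain ⟨h0, hcl, ⟨d, hd, h1⟩, -, -, hirr⟩ := fS1 H W η0 hη0
  have hmul : ∀ a, η0 (z * a) * η0 1 = η0 z * η0 a := by
    intro a
    by_cases ha : a ∈ W
    · have hcen : (⟨z, hzW⟩ : W) ∈ Subgroup.center W :=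
        Subgroup.mem_center_iff.2 fun g => Subtype.ext (T.kerp z hz g).symm
      exact (fZH W _ hirr ⟨z, hzW⟩ hcen).1 ⟨a, ha⟩
    · rw [h0 a ha, h0 (z * a) (fun h => ha ((W.mul_mem_cancel_left hzW).1 h))]
      ring
  refine ⟨?_, hmul⟩
  have hd0 : η0 1 ≠ 0 := by
    rw [h1]
    exact_mod_cast hd.ne'
  have hd1 : conj (η0 1) = η0 1 := by
    rw [h1]
    simp
  have ht1 : conj (τ 1) = τ 1 := by rw [tau1 T, th1c T]
  have h2 : ∑ a, η (z * a) * conj (η0 (z * a)) = ∑ a, η a * conj (η0 a) :=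
    Fintype.sum_equiv (Equiv.mulLeft z) _ _ fun a => rfl
  have h3 : (∑ a, η (z * a) * conj (η0 (z * a))) * (τ 1 * η0 1) =
      conj (τ z) * conj (η0 z) * ∑ a, η a * conj (η0 a) := by
    rw [Finset.sum_mul, Finset.mul_sum]
    refine Finset.sum_congr rfl fun a _ => ?_
    have h4 := congrArg (starRingEnd ℂ) (hmul a)
    rw [map_mul, map_mul, hd1] at h4
    calc η (z * a) * conj (η0 (z * a)) * (τ 1 * η0 1) =
        (η (z * a) * τ 1) * (conj (η0 (z * a)) * η0 1) := by ring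
      _ = conj (τ z) * conj (η0 z) * (η a * conj (η0 a)) := by
        rw [hη z hz a, h4]
        ring
  rw [h2, mul_comm] at h3
  have h5 := mul_right_cancel₀ hS h3
  have h6 := congrArg (starRingEnd ℂ) h5
  rw [map_mul, map_mul, Complex.conj_conj, Complex.conj_conj, hd1, ht1] at h6
  rw [mul_comm, ← h6]
  ring

end fin

/-- GA: the theorem of Gallagher for triples -/
theorem ga (ZF : AMt.T_ZF) (SC : AMt.T_SC) : AMt.T_GA := by
  intro Γ _ _ K U θ H _ _ p i τ T V hK hV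
  refine ⟨?_, ?_, ?_⟩
  · intro ψ hψ ho
    have hD := etaD T ZF SC hK hV hψ ho
    have hψ1 : ψ 1 = τ 1 * eta K p i τ ψ 1 := by
      have := hD 1 (V.comap p).one_mem
      rwa [map_one] at this
    obtain ⟨dψ, hdψ, hψd⟩ := (fS1 Γ V ψ hψ).2.2.1
    have hne : eta K p i τ ψ ≠ 0 := by
      intro h
      rw [h, Pi.zero_apply, mul_zero, hψd] at hψ1
      have : dψ = 0 := by exact_mod_cast hψ1
      omega
    obtain ⟨η0, hη0, hS⟩ : ∃ η0 ∈ IrrS (V.comap p),
        ∑ a, eta K p i τ ψ a * conj (η0 a) ≠ 0 := by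
      by_contra hcon
      push Not at hcon
      exact hne (fS3 H (V.comap p) _ (etaS T hK hψ)
        (fun n hn g => etaE T hψ n hn g) hcon)
    have hinv := etaI T ZF hK (fun a k => etaB T a k) hη0 hS
    have hker := etaK T (fun z hz a => etaC T z hz a) hη0 hS
    obtain ⟨ψ0, hψ0, -, hψ0D⟩ := cons T hK hV hη0 hinv (fun z hz => (hker z hz).1)
    have hW0 : ∀ a, a ∉ V.comap p → η0 a = 0 := (fS1 H (V.comap p) η0 hη0).1
    have heq : (fun w : V.comap p => ψ (p w)) = fun w : V.comap p => ψ0 (p w) := by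
      by_contra hne2
      have h1 := fA1 (V.comap p) _ _ (pb T hV hψ) (pb T hV hψ0)
      rw [if_neg hne2] at h1
      apply hS
      have h2 := sumS (V.comap p) (fun a => eta K p i τ ψ a * conj (η0 a)) (fun g hg => by
        rw [hW0 g hg]; simp)
      have h3 := nsum T (fun a => eta K p i τ ψ a * conj (η0 a)) (fun a k => by
        simp only [etaB T, hinv])
      have h4 := sumS (V.comap p) (fun a => τ a * conj (τ a) *
        (eta K p i τ ψ a * conj (η0 a))) (fun g hg => by rw [hW0 g hg]; simp)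
      rw [← h3, ← h4, ← h1]
      refine Finset.sum_congr rfl fun w _ => ?_
      rw [hD w w.2, hψ0D w w.2, map_mul]
      ring
    have hηη : eta K p i τ ψ = η0 := by
      refine kinv T (fun a k => etaB T a k) hinv fun a => ?_
      by_cases ha : a ∈ V.comap p
      · have := congrFun heq ⟨a, ha⟩
        simp only at this
        rw [← hD a ha, ← hψ0D a ha, this]
      · rw [hW0 a ha, etaS T hK hψ a ha]
    refine ⟨eta K p i τ ψ, hηη ▸ hη0, fun a k => etaB T a k, fun a ha => ⟨hD a ha, etaA T a⟩,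
      ?_, ?_⟩
    · rw [hψ1, tau1 T]
    · intro z hz a
      have h1 := etaC (ψ := ψ) T z hz a
      have h2 := tz0 T z hz
      have h3 : τ 1 ≠ 0 := by
        rw [tau1 T]
        exact th1 T
      apply mul_right_cancel₀ h3
      calc eta K p i τ ψ (z * a) * τ z * τ 1 = (eta K p i τ ψ (z * a) * τ 1) * τ z := by ring
        _ = (τ z * conj (τ z)) * eta K p i τ ψ a := by rw [h1]; ring
        _ = eta K p i τ ψ a * τ 1 * τ 1 := by rw [h2]; ring
  · intro η hη h1 h2
    exact cons T hK hV hη h1 h2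
  · intro η η' h1 h2 h3
    exact kinv T h1 h2 h3

end Pool.Agent.H51.T2
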